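import Pool.Agent.N825.WI.Tower
import Pool.Agent.N825.WI.PP
import Pool.Agent.N825.WI.OVER
import Pool.Agent.N825.WI.NORM
import Pool.Agent.N825.WI.PAR
import Pool.Agent.N825.WI.QQ
import Pool.Agent.N825.WI.RED

set_option autoImplicit false

/-!
# A field with `w`-invariant greater than three

A quadratic form over a field `K` of characteristic not two is weakly isotropic if `n × φ` is isotropic
for some `n`, and minimal weakly isotropic if moreover no proper subform (orthogonal summand of smaller
dimension) is weakly isotropic; `w(K)` is the supremum of the dimensions of the regular minimal weakly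
isotropic forms.  Arason and Pfister found forms of dimension three; here: the four-dimensional form

`φ = 3 p (t² + 1) X₀² + 3 (1 - p) X₁² - q (s² + 1) X₂² - (1 - q) X₃²`

over `K = ℚ(p, t, q, s)` (rational functions in four variables) is minimal weakly isotropic.  Hence
`w(K) ≥ 4 > 3`.

Idea of the proof.  `6 × φ` is isotropic since `1/(3 (t² + 1))`, `1/3`, `1/(s² + 1)` and `1` are sums of six
squares.  The subforms of dimension three lie in hyperplanes `∑ w_i X_i = 0`.  One works over arbitrary
finite extensions `L` of ODD degree of the fields of the tower and with discrete valuations of odd residue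
degree over the field of constants.  For a function `g ≠ 0` on such an extension `L` of `F(t)` there is such a
valuation `v` with `v(g) ≠ -min (0, v(t))`: otherwise the norm of `g` would have even order at all closed
points of odd degree except at infinity, where it would have odd order, against the fact that the degree of
a principal divisor is zero.  So at some odd place the two coordinates `w₂, w₃` of the hyperplane have different
normalized orders and the reduced hyperplane contains a coordinate axis; over the next field of the tower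
the coefficient `q (s² + 1)` or `1 - q` is ramified over an odd place above `q = 0` or `q = 1`, and the
reduced form has only the three coefficients `3 p (t² + 1), 3 (1 - p), -R` with `R` a sum of two squares.
Repeating this with `t, p` one arrives at the forms `3 S, -R` over number fields of odd degree, `S, R`
sums of two squares, which are not weakly isotropic in dimension one since `3^d`, `d` odd, is not a sum
of two rational squares.
-/

namespace Pool.Agent.Results.MP_2416ca_nt.WInvariantFour

open Pool.Agent.N825.WI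

/-- The quadratic form `φ` is weakly isotropic: the orthogonal sum `n × φ` of `n` copies of `φ` is isotropic
for some `n`. -/
def WeaklyIsotropic {K V : Type} [Field K] [AddCommGroup V] [Module K V]
    (φ : QuadraticForm K V) : Prop :=
  ∃ n : ℕ, ¬ (QuadraticMap.pi fun _ : Fin n => φ).Anisotropic

/-- `ψ` is a subform of `φ`: `φ` is isometric to `ψ ⊥ χ` for some (finite-dimensional) form `χ`. -/
def IsSubform {K V W : Type} [Field K] [AddCommGroup V] [Module K V] [AddCommGroup W] [Module K W]
    (ψ : QuadraticForm K W) (φ : QuadraticForm K V) : Prop :=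
  ∃ (U : Type) (_ : AddCommGroup U) (_ : Module K U) (_ : FiniteDimensional K U)
    (χ : QuadraticForm K U), Nonempty (φ.IsometryEquiv (ψ.prod χ))

/-- `φ` is minimal weakly isotropic: it is weakly isotropic, and no proper subform is. -/
def MinimalWeaklyIsotropic {K V : Type} [Field K] [AddCommGroup V] [Module K V]
    (φ : QuadraticForm K V) : Prop :=
  WeaklyIsotropic φ ∧
    ∀ (W : Type) [AddCommGroup W] [Module K W] [FiniteDimensional K W] (ψ : QuadraticForm K W),
      IsSubform ψ φ → Module.finrank K W < Module.finrank K V → ¬ WeaklyIsotropic ψ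

/-- The `w`-invariant: the supremum of the dimensions of the (regular, finite-dimensional) minimal weakly
isotropic forms over `K`. -/
noncomputable def wInvariant (K : Type) [Field K] : ℕ∞ :=
  sSup {d : ℕ∞ | ∃ (V : Type) (_ : AddCommGroup V) (_ : Module K V) (_ : FiniteDimensional K V)
    (φ : QuadraticForm K V), (QuadraticMap.polarBilin φ).Nondegenerate ∧
      MinimalWeaklyIsotropic φ ∧ d = Module.finrank K V}

/-- `ℚ(p)(t)` -/
def K₂ : Type := RatFunc (RatFunc ℚ)

noncomputable instance : Field K₂ := inferInstanceAs (Field (RatFunc (RatFunc ℚ)))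

/-- `ℚ(p)(t)(q)` -/
def K₃ : Type := RatFunc K₂

noncomputable instance : Field K₃ := inferInstanceAs (Field (RatFunc K₂))

/-- `ℚ(p)(t)(q)(s)`, the field of rational functions in four variables over the rationals. -/
def K₄ : Type := RatFunc K₃

noncomputable instance : Field K₄ := inferInstanceAs (Field (RatFunc K₃))

/-- the embedding of `ℚ(p)` in `ℚ(p)(t)` -/
noncomputable def c₂ : RatFunc ℚ →+* K₂ := (RatFunc.C : RatFunc ℚ →+* RatFunc (RatFunc ℚ))

/-- the embedding of `ℚ(p)(t)` in `ℚ(p)(t)(q)` -/
noncomputable def c₃ : K₂ →+* K₃ := (RatFunc.C : K₂ →+* RatFunc K₂)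

/-- the embedding of `ℚ(p)(t)(q)` in `ℚ(p)(t)(q)(s)` -/
noncomputable def c₄ : K₃ →+* K₄ := (RatFunc.C : K₃ →+* RatFunc K₃)

/-- the variable `p` -/
noncomputable def p : K₄ := c₄ (c₃ (c₂ RatFunc.X))

/-- the variable `t` -/
noncomputable def t : K₄ := c₄ (c₃ (RatFunc.X : RatFunc (RatFunc ℚ)))

/-- the variable `q` -/
noncomputable def q : K₄ := c₄ (RatFunc.X : RatFunc K₂)

/-- the variable `s` -/
noncomputable def s : K₄ := (RatFunc.X : RatFunc K₃)

/-- The coefficients of the form. -/
noncomputable def coeff : Fin 4 → K₄ :=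
  ![3 * p * (t ^ 2 + 1), 3 * (1 - p), -(q * (s ^ 2 + 1)), -(1 - q)]

/-- The form `3 p (t² + 1) X₀² + 3 (1 - p) X₁² - q (s² + 1) X₂² - (1 - q) X₃²` over `ℚ(p, t, q, s)`. -/
noncomputable def φ : QuadraticForm K₄ (Fin 4 → K₄) :=
  QuadraticMap.weightedSumSquares K₄ coeff

section

variable (hR : S_RED) (hRO : S_REDO) (hO : S_OVER) (hP : S_PAR) (hQ : S_Q)

include hR hRO hO hP hQ

/-- The tower. -/
theorem tower : FReal K₄ ∧ H4 K₄ p t q s ∧ p ≠ 0 ∧ 1 - p ≠ 0 ∧ q ≠ 0 ∧ 1 - q ≠ 0 := by
  have r0 : RO ℚ := ro_rat hQ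
  have r1 : RO (RatFunc ℚ) := ro_step hR hO ℚ r0
  have c1 : CharZero (RatFunc ℚ) := r1.real.charZero
  have r2 : RO K₂ := ro_step hR hO _ r1
  have c2' : CharZero K₂ := r2.real.charZero
  have hp2 : c₂ RatFunc.X ≠ 0 := (map_ne_zero _).2 RatFunc.X_ne_zero
  have hp2' : 1 - c₂ RatFunc.X ≠ 0 := by
    rw [← map_one c₂, ← map_sub]
    exact (map_ne_zero _).2 one_sub_X_ne
  have h2 : H2 K₂ (c₂ RatFunc.X) (RatFunc.X : RatFunc (RatFunc ℚ)) :=
    d2 hR hO hP r1 RatFunc.X_ne_zero one_sub_X_ne (d1 hRO hO hQ)
  have r3 : RO K₃ := ro_step hR hO _ r2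
  have c3' : CharZero K₃ := r3.real.charZero
  have hp3 : c₃ (c₂ RatFunc.X) ≠ 0 := (map_ne_zero _).2 hp2
  have hp3' : 1 - c₃ (c₂ RatFunc.X) ≠ 0 := by
    rw [← map_one c₃, ← map_sub]
    exact (map_ne_zero _).2 hp2'
  have hq3 : (RatFunc.X : RatFunc K₂) ≠ 0 := RatFunc.X_ne_zero
  have hq3' : 1 - (RatFunc.X : RatFunc K₂) ≠ 0 := one_sub_X_ne
  have h3 : H3 K₃ (c₃ (c₂ RatFunc.X)) (c₃ (RatFunc.X : RatFunc (RatFunc ℚ)))
    (RatFunc.X : RatFunc K₂) := d3 hRO hO r2 hp2 hp2' h2
  have r4 : RO K₄ := ro_step hR hO _ r3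
  refine ⟨r4.real, d4 hR hO hP r3 hp3 hp3' hq3 hq3' h3, (map_ne_zero _).2 hp3, ?_,
    (map_ne_zero _).2 hq3, ?_⟩
  · show 1 - c₄ (c₃ (c₂ RatFunc.X)) ≠ 0
    rw [← map_one c₄, ← map_sub]
    exact (map_ne_zero _).2 hp3'
  · show 1 - c₄ (RatFunc.X : RatFunc K₂) ≠ 0
    rw [← map_one c₄, ← map_sub]
    exact (map_ne_zero _).2 hq3'

/-- `φ` is regular, minimal weakly isotropic, and `w(K₄) > 3`. -/
theorem main : (2 : K₄) ≠ 0 ∧ (QuadraticMap.polarBilin φ).Nondegenerate ∧
    MinimalWeaklyIsotropic φ ∧ 3 < wInvariant K₄ := by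
  obtain ⟨hF, h4, hp, hp1, hq, hq1⟩ := tower hR hRO hO hP hQ
  have hch : CharZero K₄ := hF.charZero
  have h2 : (2 : K₄) ≠ 0 := two_ne_zero
  have h3 : (3 : K₄) ≠ 0 := three_ne hF
  have ht1 : t ^ 2 + 1 ≠ 0 := by
    have := hF.add_sq (a := t) (b := 1) (Or.inr one_ne_zero)
    simpa using this
  have hs1 : s ^ 2 + 1 ≠ 0 := by
    have := hF.add_sq (a := s) (b := 1) (Or.inr one_ne_zero)
    simpa using this
  have hco : ∀ i, coeff i ≠ 0 := by
    intro i
    fin_cases i
    · exact mul_ne_zero (mul_ne_zero h3 hp) ht1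
    · exact mul_ne_zero h3 hp1
    · exact neg_ne_zero.2 (mul_ne_zero hq hs1)
    · exact neg_ne_zero.2 hq1
  have hφ : ∀ x : Fin 4 → K₄, φ x = ∑ i, coeff i * x i ^ 2 := by
    intro x
    rw [φ, QuadraticMap.weightedSumSquares_apply]
    refine Finset.sum_congr rfl fun i _ => ?_
    rw [smul_eq_mul, pow_two]
  -- regularity
  have hpol : ∀ (x : Fin 4 → K₄) (i : Fin 4),
      QuadraticMap.polarBilin φ x (Pi.single i 1) = 2 * coeff i * x i := by
    intro x i
    rw [QuadraticMap.polarBilin_apply_apply, QuadraticMap.polar, hφ, hφ, hφ,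
      ← Finset.sum_sub_distrib, ← Finset.sum_sub_distrib]
    rw [Finset.sum_eq_single i]
    · simp; ring
    · intro j _ hj
      rw [Pi.add_apply, Pi.single_eq_of_ne hj]; ring
    · intro h; exact absurd (Finset.mem_univ i) h
  have hsep : ∀ x : Fin 4 → K₄, (∀ y, QuadraticMap.polarBilin φ x y = 0) → x = 0 := by
    intro x hx
    funext i
    have := hx (Pi.single i 1)
    rw [hpol] at this
    exact (mul_eq_zero.1 this).resolve_left (mul_ne_zero h2 (hco i))
  have hreg : (QuadraticMap.polarBilin φ).Nondegenerate := by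
    refine ⟨hsep, ?_⟩
    intro y hy
    refine hsep y fun x => ?_
    have := hy x
    rw [QuadraticMap.polarBilin_apply_apply] at this ⊢
    rw [QuadraticMap.polar_comm]; exact this
  -- weak isotropy
  have hwi : WeaklyIsotropic φ := by
    refine ⟨6, ?_⟩
    rw [QuadraticMap.not_anisotropic_iff_exists]
    refine ⟨fun k => ![(![t, t, t, 1, 1, 1] : Fin 6 → K₄) k / (3 * (t ^ 2 + 1)),
      (![1, 1, 1, 0, 0, 0] : Fin 6 → K₄) k / 3, (![s, 1, 0, 0, 0, 0] : Fin 6 → K₄) k / (s ^ 2 + 1),
      (![1, 0, 0, 0, 0, 0] : Fin 6 → K₄) k], ?_, ?_⟩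
    · intro h
      have := congrFun (congrFun h 0) 3
      simp at this
    · rw [QuadraticMap.pi_apply]
      simp only [hφ, coeff, Fin.sum_univ_succ, Fin.sum_univ_zero]
      simp [Fin.succ]
      field_simp
      ring
  -- minimality
  have hmin : MinimalWeaklyIsotropic φ := by
    refine ⟨hwi, ?_⟩
    intro W _ _ _ ψ hsub hdim hψ
    obtain ⟨U, _, _, _, χ, ⟨e⟩⟩ := hsub
    obtain ⟨n, hn⟩ := hψ
    rw [QuadraticMap.not_anisotropic_iff_exists] at hn
    obtain ⟨x, hx, hx0⟩ := hn
    -- the embedding of `W`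
    set j : W →ₗ[K₄] (Fin 4 → K₄) := e.symm.toLinearEquiv.toLinearMap ∘ₗ LinearMap.inl K₄ W U
      with hj
    have hjinj : Function.Injective j := by
      rw [hj, LinearMap.coe_comp]
      exact e.symm.toLinearEquiv.injective.comp LinearMap.inl_injective
    have hjφ : ∀ v, φ (j v) = ψ v := by
      intro v
      have := e.symm.map_app (v, 0)
      rw [QuadraticMap.prod_apply, map_zero, add_zero] at this
      exact this
    have hlt : LinearMap.range j < ⊤ := by
      refine lt_top_iff_ne_top.2 fun htop => ?_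
      have h1 := LinearMap.finrank_range_of_inj hjinj
      rw [htop, finrank_top] at h1
      omega
    obtain ⟨g, hg, hgle⟩ := Submodule.exists_le_ker_of_lt_top _ hlt
    set w : Fin 4 → K₄ := fun i => g (Pi.single i 1) with hw
    have hgw : ∀ v : Fin 4 → K₄, g v = ∑ i, w i * v i := by
      intro v
      conv_lhs => rw [← Finset.univ_sum_single v]
      rw [map_sum]
      refine Finset.sum_congr rfl fun i _ => ?_
      have : (Pi.single i (v i) : Fin 4 → K₄) = v i • Pi.single i 1 := by
        rw [← Pi.single_smul, smul_eq_mul, mul_one]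
      rw [this, map_smul, smul_eq_mul, mul_comm]
    have hw0 : w ≠ 0 := by
      intro h0
      apply hg
      refine LinearMap.ext fun v => ?_
      rw [hgw v, h0]
      simp
    refine h4 K₄ (RingHom.id K₄) ⟨Module.Finite.self _, ?_⟩ w hw0 ?_
    · rw [show @Module.finrank K₄ K₄ _ _ ((RingHom.id K₄).toAlgebra).toModule = 1 from
        Module.finrank_self _]
      exact odd_one
    · refine ⟨n, fun k => j (x k), ?_, ?_, ?_⟩
      · intro h0
        apply hx
        funext k
        have h6 : j (x k) = 0 := congrFun h0 k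
        exact hjinj (h6.trans (map_zero j).symm)
      · intro k
        rw [← hgw]
        exact hgle ⟨x k, rfl⟩
      · have h5 : ∑ k, φ (j (x k)) = 0 := by
          rw [QuadraticMap.pi_apply] at hx0
          rw [← hx0]
          exact Finset.sum_congr rfl fun k _ => hjφ _
        rw [← h5]
        refine Finset.sum_congr rfl fun k _ => ?_
        rw [hφ]
        rfl
  refine ⟨h2, hreg, hmin, ?_⟩
  refine lt_of_lt_of_le (b := (4 : ℕ∞)) (by norm_num) ?_
  refine le_sSup ⟨Fin 4 → K₄, inferInstance, inferInstance, inferInstance, φ, hreg, hmin, ?_⟩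
  simp

end

/-- **A field with `w`-invariant greater than three.**  Over the field `K₄ = ℚ(p, t, q, s)` of rational
functions the form `φ = 3 p (t² + 1) X₀² + 3 (1 - p) X₁² - q (s² + 1) X₂² - (1 - q) X₃²` is regular and minimal
weakly isotropic; hence `w(K₄) > 3`. -/
theorem result : (2 : K₄) ≠ 0 ∧ (QuadraticMap.polarBilin φ).Nondegenerate ∧
    MinimalWeaklyIsotropic φ ∧ 3 < wInvariant K₄ :=
  main red redo (over_main pp) (par (normParity pp)) qq

end Pool.Agent.Results.MP_2416ca_nt.WInvariantFour
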